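import Pool.Agent.L7h3.GX.Stm
import Pool.Agent.Y699.R10

/-!
# Project GX: the class has positive density
-/

set_option autoImplicit false

open scoped Classical

namespace Pool.Agent.L7h97.GX

open Finset
open Pool.Agent.L7h3.GX
open H385 (ZI nrm)
open Pool.Agent.Y699 (PP PS PD qr ep QB mem_QB mem_PD nrm_prod norm_le_of_dvd GB₄ positive₄ mem_SB)

theorem nrm_mod {D : ZI} (h : Zsqrtd.norm D % 16 = 13) : nrm D % 16 = 13 := by
  have h1 := GaussianInt.norm_nonneg D
  unfold nrm
  omega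

theorem t_LOW : S_LOW := by
  obtain ⟨c, hc, X₀, h⟩ := positive₄
  refine ⟨c, X₀, hc, fun X hX => (h X hX).trans ?_⟩
  have h1 : (GB₄ X).card ≤ (SS X).card := by
    apply Finset.card_le_card_of_injOn PD
    · intro D hD
      rw [Finset.mem_coe] at hD
      unfold GB₄ at hD
      rw [Finset.mem_filter, mem_SB] at hD
      obtain ⟨⟨h2, h3⟩, h4⟩ := hD
      rw [Finset.mem_coe]
      unfold SS
      rw [Finset.mem_filter, Finset.mem_powerset]
      have e : ∏ π ∈ PD D, nrm π = nrm D := by rw [← nrm_prod, h3.prod]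
      refine ⟨fun π hπ => ?_, ⟨fun π hπ => ((mem_PD h3.ne).1 hπ).1, ?_⟩, ?_⟩
      · obtain ⟨h5, h6⟩ := (mem_PD h3.ne).1 hπ
        exact mem_QB.2 ⟨(norm_le_of_dvd h3.ne h6).trans h2, h5⟩
      · rw [e]
        exact nrm_mod h4.nm
      · rw [e]
        exact h2
    · intro D hD D' hD' h2
      rw [Finset.mem_coe] at hD hD'
      unfold GB₄ at hD hD'
      rw [Finset.mem_filter, mem_SB] at hD hD'
      rw [← hD.1.2.prod, ← hD'.1.2.prod, h2]
  exact_mod_cast h1

end Pool.Agent.L7h97.GX
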